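import Pool.Agent.Helper69.ST.GoalsR

/-!
# Project ST, part 2 (MP_438009_an), packet FC: the filled domain is connected
-/

set_option autoImplicit false

open Set Metric

namespace Pool.Agent.Helper70.ST.FC

open Pool.Agent.Helper69.ST
open Pool.Agent.Helper45.Stek

theorem claim (hOC : S_OC) (hFA : S_FA) (hLC : S_LC) (Ω : Set ℂ) (hΩ : LipDomain Ω) (y : ℂ)
    (hy : y ∈ fill Ω) : ∃ T ⊆ fill Ω, IsPreconnected T ∧ y ∈ T ∧ (T ∩ Ω).Nonempty := by
  obtain ⟨hOo, -, hOd, -, hOe⟩ := hOC Ω hΩ.bdd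
  obtain ⟨hFo, -, -, -, hFO, -, -⟩ := hFA Ω hΩ.isOpen hΩ.bdd
  by_cases hyc : y ∈ closure Ω
  · obtain ⟨ε, hε, hB⟩ := Metric.isOpen_iff.1 hFo y hy
    refine ⟨ball y ε, hB, (convex_ball y ε).isPreconnected, mem_ball_self hε, ?_⟩
    exact mem_closure_iff.1 hyc _ isOpen_ball (mem_ball_self hε)
  · set W := connectedComponentIn (closure Ω)ᶜ y with hW
    have hyF : y ∈ (closure Ω)ᶜ := hyc
    have hWo : IsOpen W := isClosed_closure.isOpen_compl.connectedComponentIn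
    have hWp : IsPreconnected W := isPreconnected_connectedComponentIn
    have hyW : y ∈ W := mem_connectedComponentIn hyF
    have hWs : W ⊆ (closure Ω)ᶜ := connectedComponentIn_subset _ _
    have hmax : ∀ C : Set ℂ, IsPreconnected C → C ⊆ (closure Ω)ᶜ → (C ∩ W).Nonempty →
        C ⊆ W := by
      rintro C hC hCs ⟨z, hzC, hzW⟩
      have h1 : IsPreconnected (C ∪ W) := hC.union z hzC hzW hWp
      have h2 : C ∪ W ⊆ W := h1.subset_connectedComponentIn (Or.inr hyW) (union_subset hCs hWs)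
      exact subset_union_left.trans h2
    have hWO : ∀ z ∈ W, z ∉ outerC Ω := by
      intro z hzW hzO
      exact hFO y hy (hOe W hWp ⟨z, hzW, hzO⟩ hWs hyW)
    have hWF : W ⊆ fill Ω := by
      intro z hzW hzc
      obtain ⟨w, hwW, hwO⟩ := mem_closure_iff.1 hzc W hWo hzW
      exact hWO w hwW hwO
    obtain ⟨x0, hx0⟩ := hΩ.conn.nonempty
    have hWne : W ≠ univ := by
      intro h
      have h1 : x0 ∈ W := by rw [h]; trivial
      exact hWs h1 (subset_closure hx0)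
    have hnc : ¬ IsClosed W := by
      intro h
      exact hWne (IsClopen.eq_univ ⟨h, hWo⟩ ⟨y, hyW⟩)
    have hex : ∃ p, p ∈ closure W ∧ p ∉ W := by
      by_contra hcon
      push Not at hcon
      exact hnc (isClosed_of_closure_subset hcon)
    obtain ⟨p, hpc, hpW⟩ := hex
    have hpcl : p ∈ closure Ω := by
      by_contra hp
      obtain ⟨ε, hε, hB⟩ := Metric.isOpen_iff.1 isClosed_closure.isOpen_compl p hp
      have h1 := hmax (ball p ε) (convex_ball p ε).isPreconnected hB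
        (mem_closure_iff.1 hpc _ isOpen_ball (mem_ball_self hε))
      exact hpW (h1 (mem_ball_self hε))
    have hpΩ : p ∉ Ω := by
      intro hp
      obtain ⟨z, hzΩ, hzW⟩ := mem_closure_iff.1 hpc Ω hΩ.isOpen hp
      exact hWs hzW (subset_closure hzΩ)
    have hpf : p ∈ frontier Ω := by
      rw [frontier, hΩ.isOpen.interior_eq]
      exact ⟨hpcl, hpΩ⟩
    obtain ⟨a, ρ, r, L, g, -, -, -, -, -, hNo, hpN, -, hNp⟩ := hLC Ω hΩ p hpf 1 one_pos
    obtain ⟨z, hzN, hzW⟩ := mem_closure_iff.1 hpc _ hNo hpN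
    have hNW : Box p a ρ r \ closure Ω ⊆ W :=
      hmax _ hNp (fun w hw => hw.2) ⟨z, ⟨hzN, hWs hzW⟩, hzW⟩
    have hpF : p ∈ fill Ω := by
      intro hc
      obtain ⟨w, hwN, hwO⟩ := mem_closure_iff.1 hc _ hNo hpN
      exact hWO w (hNW ⟨hwN, hOd w hwO⟩) hwO
    obtain ⟨ε, hε, hB⟩ := Metric.isOpen_iff.1 hFo p hpF
    obtain ⟨u, huB, huW⟩ := mem_closure_iff.1 hpc _ isOpen_ball (mem_ball_self hε)
    obtain ⟨v, hvB, hvΩ⟩ := mem_closure_iff.1 hpcl _ isOpen_ball (mem_ball_self hε)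
    refine ⟨W ∪ ball p ε, union_subset hWF hB, hWp.union u huW huB
      (convex_ball p ε).isPreconnected, Or.inl hyW, ⟨v, Or.inr hvB, hvΩ⟩⟩

theorem t (hOC : S_OC) (hFA : S_FA) (hLC : S_LC) : Pool.Agent.Helper69.ST.S_FC := by
  intro Ω hΩ
  have hsub : Ω ⊆ fill Ω := (hFA Ω hΩ.isOpen hΩ.bdd).2.2.1
  obtain ⟨x0, hx0⟩ := hΩ.conn.nonempty
  refine ⟨⟨x0, hsub hx0⟩, isPreconnected_of_forall x0 ?_⟩
  intro y hy
  obtain ⟨T, hT, hTp, hyT, z, hzT, hzΩ⟩ := claim hOC hFA hLC Ω hΩ y hy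
  exact ⟨T ∪ Ω, union_subset hT hsub, Or.inr hx0, Or.inl hyT,
    hTp.union z hzT hzΩ hΩ.conn.isPreconnected⟩

end Pool.Agent.Helper70.ST.FC
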