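import Pool.Agent.Helper69.ST.GoalsW
import Pool.Agent.Helper45.Stek.PN

/-!
# Project ST, part 3 (MP_438009_an), packet PN2: the map with `b = 3/20`
-/

open MeasureTheory Set Complex Metric
open scoped ContDiff Topology ENNReal

namespace Pool.Agent.Helper70.ST.PN2

open Pool.Agent.Helper69.ST
open Pool.Agent.Helper45.Stek

theorem pow_bound2 (k : ℕ) (hk : 2 ≤ k) (x : ℝ) (hx0 : 0 ≤ x) (hx : x ≤ 1 + 1 / (20 * k)) :
    x ^ k ≤ 53 / 50 := by
  have hk0 : (0 : ℝ) < k := by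
    have : 0 < k := by omega
    exact_mod_cast this
  have h1 : x ≤ Real.exp (1 / (20 * k)) := by
    have := Real.add_one_le_exp (1 / (20 * (k : ℝ)))
    linarith
  have h2 : x ^ k ≤ Real.exp (1 / (20 * k)) ^ k := pow_le_pow_left₀ hx0 h1 k
  have h3 : Real.exp (1 / (20 * k)) ^ k = Real.exp (1 / 20) := by
    rw [← Real.exp_nat_mul]
    congr 1
    field_simp
  rw [h3] at h2
  have h4 : Real.exp (1 / 20 : ℝ) ≤ 53 / 50 := by
    have h5 : (Real.exp (1 / 20 : ℝ)) ^ 20 = Real.exp 1 := by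
      rw [← Real.exp_nat_mul]
      norm_num
    have h6 := Real.exp_one_lt_d9
    have h7 : (Real.exp (1 / 20 : ℝ)) ^ 20 ≤ (53 / 50 : ℝ) ^ 20 := by
      rw [h5]
      norm_num
      linarith
    exact le_of_pow_le_pow_left₀ (by norm_num) (by norm_num) h7
  linarith

theorem phi_near2 (k : ℕ) (hk : 2 ≤ k) : Near (phi k (3 / 20)) (1 / (20 * k)) := by
  have hk0 : (0 : ℝ) < k := by
    have : 0 < k := by omega
    exact_mod_cast this
  refine ⟨by positivity, fun z => (phi_deriv k (3 / 20) z).differentiableAt, ?_⟩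
  intro z hz w hw
  have hconv : Convex ℝ (closedBall (0 : ℂ) (1 + 1 / (20 * k))) := convex_closedBall _ _
  have h := hconv.norm_image_sub_le_of_norm_hasDerivWithin_le
    (f := fun z => phi k (3 / 20) z - z) (f' := fun z => (1 + (3 / 20 : ℝ) * z ^ k) ^ 2 - 1)
    (C := 7 / 20)
    (fun x _ => ((phi_deriv k (3 / 20) x).sub (hasDerivAt_id x)).hasDerivWithinAt) ?_ hw hz
  · have h2 : phi k (3 / 20) z - z - (phi k (3 / 20) w - w) =
        phi k (3 / 20) z - phi k (3 / 20) w - (z - w) := by ring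
    rw [← h2]
    exact h
  · intro x hx
    have hx1 : ‖x‖ ≤ 1 + 1 / (20 * k) := by
      simpa using hx
    have hx2 := pow_bound2 k hk ‖x‖ (norm_nonneg _) hx1
    have h3 : (1 + ((3 / 20 : ℝ) : ℂ) * x ^ k) ^ 2 - 1 =
        ((3 / 20 : ℝ) : ℂ) * x ^ k * (2 + ((3 / 20 : ℝ) : ℂ) * x ^ k) := by ring
    have h4 : ‖((3 / 20 : ℝ) : ℂ) * x ^ k‖ ≤ 3 / 20 * (53 / 50) := by
      rw [norm_mul, norm_pow, Complex.norm_real, Real.norm_of_nonneg (by norm_num)]
      exact mul_le_mul le_rfl hx2 (by positivity) (by norm_num)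
    rw [h3, norm_mul]
    have h5 : ‖2 + ((3 / 20 : ℝ) : ℂ) * x ^ k‖ ≤ 2 + 3 / 20 * (53 / 50) := by
      refine (norm_add_le _ _).trans ?_
      have : ‖(2 : ℂ)‖ = 2 := by norm_num
      rw [this]
      linarith
    calc ‖((3 / 20 : ℝ) : ℂ) * x ^ k‖ * ‖2 + ((3 / 20 : ℝ) : ℂ) * x ^ k‖
        ≤ (3 / 20 * (53 / 50)) * (2 + 3 / 20 * (53 / 50)) :=
          mul_le_mul h4 h5 (norm_nonneg _) (by norm_num)
      _ ≤ 7 / 20 := by norm_num

theorem t : S_PN2 := by
  intro k hk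
  refine ⟨phi_deriv k (3 / 20), phi_near2 k hk, 0, ?_⟩
  set w := exp (2 * Real.pi * I / k) with hw
  have hk0 : (k : ℂ) ≠ 0 := by
    have : k ≠ 0 := by omega
    exact_mod_cast this
  have hwk : w ^ k = 1 := by
    rw [hw, ← Complex.exp_nat_mul]
    have : (k : ℂ) * (2 * Real.pi * I / k) = 2 * Real.pi * I := by field_simp
    rw [this, Complex.exp_two_pi_mul_I]
  have hw1 : ‖w‖ = 1 := by
    rw [hw]
    have : 2 * Real.pi * I / k = ((2 * Real.pi / k : ℝ) : ℂ) * I := by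
      push_cast
      ring
    rw [this, Complex.norm_exp_ofReal_mul_I]
  have h1 : rot 0 w = fun z => w * z := by
    ext z
    simp [rot]
  rw [h1]
  ext z
  constructor
  · rintro ⟨y, ⟨x, hx, rfl⟩, rfl⟩
    refine ⟨w * x, ?_, ?_⟩
    · rw [← rot_ball w hw1]
      exact ⟨x, hx, rfl⟩
    · exact phi_rot k _ w x hwk
  · rintro ⟨x, hx, rfl⟩
    rw [← rot_ball w hw1] at hx
    obtain ⟨y, hy, rfl⟩ := hx
    exact ⟨phi k (3 / 20) y, ⟨y, hy, rfl⟩, (phi_rot k _ w y hwk).symm⟩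

end Pool.Agent.Helper70.ST.PN2
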